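import Pool.Agent.H902R2.HO.Stubs2

/-!
ROOM HO: continuity of the curvature polynomial in its parameters.
-/

open Topology

namespace H930HO
open H902HO

/-! ### naturality of the normal form -/

section
variable {R R' : Type*} [Add R] [Sub R] [Mul R] [Neg R] [Add R'] [Sub R'] [Mul R'] [Neg R']

/-- a map compatible with the operations -/
structure IsMap (f : R → R') : Prop where
  add : ∀ a b, f (a + b) = f a + f b
  sub : ∀ a b, f (a - b) = f a - f b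
  mul : ∀ a b, f (a * b) = f a * f b
  neg : ∀ a, f (-a) = -f a

variable {f : R → R'} (h : IsMap f)
include h

theorem IsMap.ohom (W Q : Sym R) (v : T R) :
    OHom (ops W Q v) (ops (W.map f) (Q.map f) (v.map f)) f (T.map f) :=
  ohom_map f h.add h.sub h.mul h.neg W Q v

theorem IsMap.cr (a b : T R) : T.map f (T.cr a b) = T.cr (T.map f a) (T.map f b) := by
  ext <;> simp [T.cr, T.map, h.sub, h.mul]

theorem IsMap.ap (w : Sym R) (a : T R) : T.map f (w.ap a) = (w.map f).ap (T.map f a) := by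
  ext <;> simp [H902HO.Sym.ap, H902HO.Sym.map, T.map, h.add, h.mul]

theorem IsMap.vadd (a b : T R) : T.map f (a + b) = T.map f a + T.map f b := by
  ext <;> simp [T.map, h.add]

theorem IsMap.vneg (a : T R) : T.map f (-a) = -T.map f a := by
  ext <;> simp [T.map, h.neg]

theorem IsMap.smul (r : R) (a : T R) : T.map f (r • a) = f r • T.map f a := by
  ext <;> simp [T.map, h.mul]

theorem PPn_map (o i : R) (w q : Sym R) (v : T R) (e l : R) (y1 y2 y3 : T R)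
    (ca sa cb sb g1 g2 g3 g4 : R) :
    f (PPn o i w q v e l y1 y2 y3 ca sa cb sb g1 g2 g3 g4) =
      PPn (f o) (f i) (w.map f) (q.map f) (v.map f) (f e) (f l) (y1.map f) (y2.map f) (y3.map f)
        (f ca) (f sa) (f cb) (f sb) (f g1) (f g2) (f g3) (f g4) := by
  unfold PPn
  rw [(h.ohom w q v).map_PP]
  have e1 : ∀ a b c : R, T.map f ⟨a, b, c⟩ = ⟨f a, f b, f c⟩ := fun _ _ _ => rfl
  simp only [OHom.mp, h.vadd, h.vneg, h.smul, h.cr, h.ap, e1]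

theorem PPc_map (o i : R) (w q : Sym R) (v : T R) (e l : R)
    (c s c1 s1 c2 s2 ca sa cb sb g1 g2 g3 g4 : R) :
    f (PPc o i w q v e l c s c1 s1 c2 s2 ca sa cb sb g1 g2 g3 g4) =
      PPc (f o) (f i) (w.map f) (q.map f) (v.map f) (f e) (f l) (f c) (f s) (f c1) (f s1) (f c2)
        (f s2) (f ca) (f sa) (f cb) (f sb) (f g1) (f g2) (f g3) (f g4) := by
  unfold PPc
  rw [PPn_map h]
  have e1 : ∀ a b c : R, T.map f ⟨a, b, c⟩ = ⟨f a, f b, f c⟩ := fun _ _ _ => rfl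
  have a1 : T.map f (cy1 o c s c1 s1 c2 s2) =
      cy1 (f o) (f c) (f s) (f c1) (f s1) (f c2) (f s2) := by
    simp only [cy1, cu1, cu2, h.vadd, h.smul, e1, h.mul, h.neg]
  have a2 : T.map f (cy2 o c s c1 s1 c2 s2) =
      cy2 (f o) (f c) (f s) (f c1) (f s1) (f c2) (f s2) := by
    simp only [cy2, cu1, cu2, h.vadd, h.smul, h.vneg, e1, h.mul, h.neg]
  have a3 : T.map f (cy3 c1 s1 c2 s2) = cy3 (f c1) (f s1) (f c2) (f s2) := by
    simp only [cy3, e1, h.mul, h.neg]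
  rw [a1, a2, a3]

end

/-! ### classes of functions closed under the operations -/

section
variable {X R : Type*} [Add R] [Sub R] [Mul R] [Neg R]

/-- a class of functions closed under the ring operations -/
structure Closd (P : (X → R) → Prop) : Prop where
  add : ∀ F G, P F → P G → P (fun p => F p + G p)
  sub : ∀ F G, P F → P G → P (fun p => F p - G p)
  mul : ∀ F G, P F → P G → P (fun p => F p * G p)
  neg : ∀ F, P F → P (fun p => -F p)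

/-- the functions of the class -/
def Rg {P : (X → R) → Prop} (_ : Closd P) : Type _ := {F : X → R // P F}

variable {P : (X → R) → Prop} (h : Closd P)

instance : Add (Rg h) := ⟨fun F G => ⟨fun p => F.1 p + G.1 p, h.add _ _ F.2 G.2⟩⟩
instance : Sub (Rg h) := ⟨fun F G => ⟨fun p => F.1 p - G.1 p, h.sub _ _ F.2 G.2⟩⟩
instance : Mul (Rg h) := ⟨fun F G => ⟨fun p => F.1 p * G.1 p, h.mul _ _ F.2 G.2⟩⟩
instance : Neg (Rg h) := ⟨fun F => ⟨fun p => -F.1 p, h.neg _ F.2⟩⟩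

/-- evaluation at a point -/
def evP (p : X) (F : Rg h) : R := F.1 p

theorem isMap_evP (p : X) : IsMap (evP h p) :=
  ⟨fun _ _ => rfl, fun _ _ => rfl, fun _ _ => rfl, fun _ => rfl⟩

/-- all components are in the class -/
structure PT (P : (X → R) → Prop) (F : X → T R) : Prop where
  x : P fun p => (F p).x
  y : P fun p => (F p).y
  z : P fun p => (F p).z

/-- all components are in the class -/
structure PS (P : (X → R) → Prop) (F : X → Sym R) : Prop where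
  xx : P fun p => (F p).xx
  xy : P fun p => (F p).xy
  xz : P fun p => (F p).xz
  yy : P fun p => (F p).yy
  yz : P fun p => (F p).yz
  zz : P fun p => (F p).zz

/-- lift of a vector -/
def PT.lift {F : X → T R} (hF : PT P F) : T (Rg h) := ⟨⟨_, hF.x⟩, ⟨_, hF.y⟩, ⟨_, hF.z⟩⟩

/-- lift of a symmetric matrix -/
def PS.lift {F : X → Sym R} (hF : PS P F) : Sym (Rg h) :=
  ⟨⟨_, hF.xx⟩, ⟨_, hF.xy⟩, ⟨_, hF.xz⟩, ⟨_, hF.yy⟩, ⟨_, hF.yz⟩, ⟨_, hF.zz⟩⟩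

theorem PPn_closd (h : Closd P) (o i : X → R) (w q : X → Sym R) (v : X → T R) (e l : X → R)
    (y1 y2 y3 : X → T R) (ca sa cb sb g1 g2 g3 g4 : X → R)
    (ho : P o) (hi : P i) (hw : PS P w) (hq : PS P q) (hv : PT P v) (he : P e) (hl : P l)
    (hy1 : PT P y1) (hy2 : PT P y2) (hy3 : PT P y3) (hca : P ca) (hsa : P sa) (hcb : P cb)
    (hsb : P sb) (hg1 : P g1) (hg2 : P g2) (hg3 : P g3) (hg4 : P g4) :
    P (fun p => PPn (o p) (i p) (w p) (q p) (v p) (e p) (l p) (y1 p) (y2 p) (y3 p) (ca p) (sa p)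
      (cb p) (sb p) (g1 p) (g2 p) (g3 p) (g4 p)) := by
  obtain ⟨o', ho'⟩ : ∃ o' : Rg h, ∀ p, evP h p o' = o p := ⟨⟨o, ho⟩, fun _ => rfl⟩
  obtain ⟨i', hi'⟩ : ∃ i' : Rg h, ∀ p, evP h p i' = i p := ⟨⟨i, hi⟩, fun _ => rfl⟩
  obtain ⟨e', he'⟩ : ∃ e' : Rg h, ∀ p, evP h p e' = e p := ⟨⟨e, he⟩, fun _ => rfl⟩
  obtain ⟨l', hl'⟩ : ∃ l' : Rg h, ∀ p, evP h p l' = l p := ⟨⟨l, hl⟩, fun _ => rfl⟩
  obtain ⟨ca', hca'⟩ : ∃ e' : Rg h, ∀ p, evP h p e' = ca p := ⟨⟨_, hca⟩, fun _ => rfl⟩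
  obtain ⟨sa', hsa'⟩ : ∃ e' : Rg h, ∀ p, evP h p e' = sa p := ⟨⟨_, hsa⟩, fun _ => rfl⟩
  obtain ⟨cb', hcb'⟩ : ∃ e' : Rg h, ∀ p, evP h p e' = cb p := ⟨⟨_, hcb⟩, fun _ => rfl⟩
  obtain ⟨sb', hsb'⟩ : ∃ e' : Rg h, ∀ p, evP h p e' = sb p := ⟨⟨_, hsb⟩, fun _ => rfl⟩
  obtain ⟨g1', hg1'⟩ : ∃ e' : Rg h, ∀ p, evP h p e' = g1 p := ⟨⟨_, hg1⟩, fun _ => rfl⟩
  obtain ⟨g2', hg2'⟩ : ∃ e' : Rg h, ∀ p, evP h p e' = g2 p := ⟨⟨_, hg2⟩, fun _ => rfl⟩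
  obtain ⟨g3', hg3'⟩ : ∃ e' : Rg h, ∀ p, evP h p e' = g3 p := ⟨⟨_, hg3⟩, fun _ => rfl⟩
  obtain ⟨g4', hg4'⟩ : ∃ e' : Rg h, ∀ p, evP h p e' = g4 p := ⟨⟨_, hg4⟩, fun _ => rfl⟩
  obtain ⟨w', hw'⟩ : ∃ w' : Sym (Rg h), ∀ p, w'.map (evP h p) = w p :=
    ⟨hw.lift h, fun _ => rfl⟩
  obtain ⟨q', hq'⟩ : ∃ w' : Sym (Rg h), ∀ p, w'.map (evP h p) = q p :=
    ⟨hq.lift h, fun _ => rfl⟩
  obtain ⟨v', hv'⟩ : ∃ w' : T (Rg h), ∀ p, w'.map (evP h p) = v p :=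
    ⟨hv.lift h, fun _ => rfl⟩
  obtain ⟨y1', hy1'⟩ : ∃ w' : T (Rg h), ∀ p, w'.map (evP h p) = y1 p :=
    ⟨hy1.lift h, fun _ => rfl⟩
  obtain ⟨y2', hy2'⟩ : ∃ w' : T (Rg h), ∀ p, w'.map (evP h p) = y2 p :=
    ⟨hy2.lift h, fun _ => rfl⟩
  obtain ⟨y3', hy3'⟩ : ∃ w' : T (Rg h), ∀ p, w'.map (evP h p) = y3 p :=
    ⟨hy3.lift h, fun _ => rfl⟩
  obtain ⟨F0, hF0⟩ : ∃ F0 : Rg h, F0 = PPn o' i' w' q' v' e' l' y1' y2' y3' ca' sa' cb' sb'
    g1' g2' g3' g4' := ⟨_, rfl⟩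
  have h2 : (fun p => PPn (o p) (i p) (w p) (q p) (v p) (e p) (l p) (y1 p) (y2 p) (y3 p) (ca p)
      (sa p) (cb p) (sb p) (g1 p) (g2 p) (g3 p) (g4 p)) = F0.1 := by
    funext p
    have h3 := PPn_map (isMap_evP h p) o' i' w' q' v' e' l' y1' y2' y3' ca' sa' cb' sb'
      g1' g2' g3' g4'
    rw [← hF0, ho', hi', hw', hq', hv', he', hl', hy1', hy2', hy3', hca', hsa', hcb', hsb', hg1',
      hg2', hg3', hg4'] at h3
    exact h3.symm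
  rw [h2]
  exact F0.2

theorem PPc_closd (h : Closd P) (o i : X → R) (w q : X → Sym R) (v : X → T R) (e l : X → R)
    (c s c1 s1 c2 s2 ca sa cb sb g1 g2 g3 g4 : X → R)
    (ho : P o) (hi : P i) (hw : PS P w) (hq : PS P q) (hv : PT P v) (he : P e) (hl : P l)
    (hc : P c) (hs : P s) (hc1 : P c1) (hs1 : P s1) (hc2 : P c2) (hs2 : P s2)
    (hca : P ca) (hsa : P sa) (hcb : P cb)
    (hsb : P sb) (hg1 : P g1) (hg2 : P g2) (hg3 : P g3) (hg4 : P g4) :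
    P (fun p => PPc (o p) (i p) (w p) (q p) (v p) (e p) (l p) (c p) (s p) (c1 p) (s1 p) (c2 p)
      (s2 p) (ca p) (sa p) (cb p) (sb p) (g1 p) (g2 p) (g3 p) (g4 p)) := by
  obtain ⟨o', ho'⟩ : ∃ o' : Rg h, ∀ p, evP h p o' = o p := ⟨⟨o, ho⟩, fun _ => rfl⟩
  obtain ⟨i', hi'⟩ : ∃ i' : Rg h, ∀ p, evP h p i' = i p := ⟨⟨i, hi⟩, fun _ => rfl⟩
  obtain ⟨e', he'⟩ : ∃ e' : Rg h, ∀ p, evP h p e' = e p := ⟨⟨e, he⟩, fun _ => rfl⟩
  obtain ⟨l', hl'⟩ : ∃ l' : Rg h, ∀ p, evP h p l' = l p := ⟨⟨l, hl⟩, fun _ => rfl⟩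
  obtain ⟨c', hc'⟩ : ∃ e' : Rg h, ∀ p, evP h p e' = c p := ⟨⟨_, hc⟩, fun _ => rfl⟩
  obtain ⟨s', hs'⟩ : ∃ e' : Rg h, ∀ p, evP h p e' = s p := ⟨⟨_, hs⟩, fun _ => rfl⟩
  obtain ⟨c1', hc1'⟩ : ∃ e' : Rg h, ∀ p, evP h p e' = c1 p := ⟨⟨_, hc1⟩, fun _ => rfl⟩
  obtain ⟨s1', hs1'⟩ : ∃ e' : Rg h, ∀ p, evP h p e' = s1 p := ⟨⟨_, hs1⟩, fun _ => rfl⟩
  obtain ⟨c2', hc2'⟩ : ∃ e' : Rg h, ∀ p, evP h p e' = c2 p := ⟨⟨_, hc2⟩, fun _ => rfl⟩
  obtain ⟨s2', hs2'⟩ : ∃ e' : Rg h, ∀ p, evP h p e' = s2 p := ⟨⟨_, hs2⟩, fun _ => rfl⟩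
  obtain ⟨ca', hca'⟩ : ∃ e' : Rg h, ∀ p, evP h p e' = ca p := ⟨⟨_, hca⟩, fun _ => rfl⟩
  obtain ⟨sa', hsa'⟩ : ∃ e' : Rg h, ∀ p, evP h p e' = sa p := ⟨⟨_, hsa⟩, fun _ => rfl⟩
  obtain ⟨cb', hcb'⟩ : ∃ e' : Rg h, ∀ p, evP h p e' = cb p := ⟨⟨_, hcb⟩, fun _ => rfl⟩
  obtain ⟨sb', hsb'⟩ : ∃ e' : Rg h, ∀ p, evP h p e' = sb p := ⟨⟨_, hsb⟩, fun _ => rfl⟩
  obtain ⟨g1', hg1'⟩ : ∃ e' : Rg h, ∀ p, evP h p e' = g1 p := ⟨⟨_, hg1⟩, fun _ => rfl⟩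
  obtain ⟨g2', hg2'⟩ : ∃ e' : Rg h, ∀ p, evP h p e' = g2 p := ⟨⟨_, hg2⟩, fun _ => rfl⟩
  obtain ⟨g3', hg3'⟩ : ∃ e' : Rg h, ∀ p, evP h p e' = g3 p := ⟨⟨_, hg3⟩, fun _ => rfl⟩
  obtain ⟨g4', hg4'⟩ : ∃ e' : Rg h, ∀ p, evP h p e' = g4 p := ⟨⟨_, hg4⟩, fun _ => rfl⟩
  obtain ⟨w', hw'⟩ : ∃ w' : Sym (Rg h), ∀ p, w'.map (evP h p) = w p :=
    ⟨hw.lift h, fun _ => rfl⟩
  obtain ⟨q', hq'⟩ : ∃ w' : Sym (Rg h), ∀ p, w'.map (evP h p) = q p :=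
    ⟨hq.lift h, fun _ => rfl⟩
  obtain ⟨v', hv'⟩ : ∃ w' : T (Rg h), ∀ p, w'.map (evP h p) = v p :=
    ⟨hv.lift h, fun _ => rfl⟩
  obtain ⟨F0, hF0⟩ : ∃ F0 : Rg h, F0 = PPc o' i' w' q' v' e' l' c' s' c1' s1' c2' s2' ca' sa'
    cb' sb' g1' g2' g3' g4' := ⟨_, rfl⟩
  have h2 : (fun p => PPc (o p) (i p) (w p) (q p) (v p) (e p) (l p) (c p) (s p) (c1 p) (s1 p)
      (c2 p) (s2 p) (ca p) (sa p) (cb p) (sb p) (g1 p) (g2 p) (g3 p) (g4 p)) = F0.1 := by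
    funext p
    have h3 := PPc_map (isMap_evP h p) o' i' w' q' v' e' l' c' s' c1' s1' c2' s2' ca' sa' cb' sb'
      g1' g2' g3' g4'
    rw [← hF0, ho', hi', hw', hq', hv', he', hl', hc', hs', hc1', hs1', hc2', hs2', hca', hsa',
      hcb', hsb', hg1', hg2', hg3', hg4'] at h3
    exact h3.symm
  rw [h2]
  exact F0.2

end

/-! ### continuity -/

theorem closd_cont {X : Type*} [TopologicalSpace X] :
    Closd (fun F : X → ℝ => Continuous F) :=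
  ⟨fun _ _ h1 h2 => h1.add h2, fun _ _ h1 h2 => h1.sub h2, fun _ _ h1 h2 => h1.mul h2,
    fun _ h1 => h1.neg⟩

/-- continuity of the three coefficients -/
def CS {X : Type*} [TopologicalSpace X] (F : X → S3 ℝ) : Prop :=
  Continuous (fun p => (F p).a) ∧ Continuous (fun p => (F p).b) ∧ Continuous (fun p => (F p).c)

theorem closd_CS {X : Type*} [TopologicalSpace X] : Closd (CS : (X → S3 ℝ) → Prop) := by
  refine ⟨fun F G hF hG => ⟨hF.1.add hG.1, hF.2.1.add hG.2.1, hF.2.2.add hG.2.2⟩,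
    fun F G hF hG => ⟨hF.1.sub hG.1, hF.2.1.sub hG.2.1, hF.2.2.sub hG.2.2⟩,
    fun F G hF hG => ⟨hF.1.mul hG.1, (hF.1.mul hG.2.1).add (hF.2.1.mul hG.1),
      ((hF.1.mul hG.2.2).add (hF.2.1.mul hG.2.1)).add (hF.2.2.mul hG.1)⟩,
    fun F hF => ⟨hF.1.neg, hF.2.1.neg, hF.2.2.neg⟩⟩

theorem CS_co {X : Type*} [TopologicalSpace X] {F : X → ℝ} (hF : Continuous F) :
    CS (fun p => co (F p)) := ⟨hF, continuous_const, continuous_const⟩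

theorem CS_li {X : Type*} [TopologicalSpace X] {F : X → ℝ} (hF : Continuous F) :
    CS (fun p => li (F p)) := ⟨continuous_const, hF, continuous_const⟩

theorem CS_cs {X : Type*} [TopologicalSpace X] {F : X → ℝ} (hF : Continuous F) :
    CS (fun p => cs (F p)) :=
  ⟨continuous_const, continuous_const, ((hF.pow 2).div_const 2).neg⟩

/-- continuity of the components of a triple -/
abbrev CT {X : Type*} [TopologicalSpace X] (F : X → T ℝ) : Prop :=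
  PT (fun F : X → ℝ => Continuous F) F

theorem CT_dot {X : Type*} [TopologicalSpace X] {F G : X → T ℝ} (hF : CT F) (hG : CT G) :
    Continuous fun p => T.dot (F p) (G p) :=
  ((hF.x.mul hG.x).add (hF.y.mul hG.y)).add (hF.z.mul hG.z)

theorem CT_cr {X : Type*} [TopologicalSpace X] {F G : X → T ℝ} (hF : CT F) (hG : CT G) :
    CT fun p => T.cr (F p) (G p) :=
  ⟨(hF.y.mul hG.z).sub (hF.z.mul hG.y), (hF.z.mul hG.x).sub (hF.x.mul hG.z),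
    (hF.x.mul hG.y).sub (hF.y.mul hG.x)⟩

theorem CT_ap {X : Type*} [TopologicalSpace X] {w : X → Sym ℝ} {F : X → T ℝ}
    (hw : PS (fun F : X → ℝ => Continuous F) w) (hF : CT F) : CT fun p => (w p).ap (F p) :=
  ⟨((hw.xx.mul hF.x).add (hw.xy.mul hF.y)).add (hw.xz.mul hF.z),
    ((hw.xy.mul hF.x).add (hw.yy.mul hF.y)).add (hw.yz.mul hF.z),
    ((hw.xz.mul hF.x).add (hw.yz.mul hF.y)).add (hw.zz.mul hF.z)⟩

theorem CT_frS {X : Type*} [TopologicalSpace X] {w : X → Sym ℝ} {x1 x2 x3 : X → T ℝ}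
    (hw : PS (fun F : X → ℝ => Continuous F) w) (h1 : CT x1) (h2 : CT x2) (h3 : CT x3) :
    PS (fun F : X → ℝ => Continuous F) fun p => frS (w p) (x1 p) (x2 p) (x3 p) :=
  ⟨CT_dot h1 (CT_ap hw h1), CT_dot h1 (CT_ap hw h2), CT_dot h1 (CT_ap hw h3),
    CT_dot h2 (CT_ap hw h2), CT_dot h2 (CT_ap hw h3), CT_dot h3 (CT_ap hw h3)⟩

theorem CT_frV {X : Type*} [TopologicalSpace X] {v x1 x2 x3 : X → T ℝ}
    (hv : CT v) (h1 : CT x1) (h2 : CT x2) (h3 : CT x3) :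
    CT fun p => frV (v p) (x1 p) (x2 p) (x3 p) :=
  ⟨CT_dot h1 hv, CT_dot h2 hv, CT_dot h3 hv⟩

theorem CT_W0 {X : Type*} [TopologicalSpace X] {μ : X → ℝ} (h : Continuous μ) :
    PS (fun F : X → ℝ => Continuous F) fun p => W0 (μ p) :=
  ⟨continuous_const, continuous_const, h, continuous_const, continuous_const, continuous_const⟩

theorem CT_const {X : Type*} [TopologicalSpace X] (a : T ℝ) : CT fun _ : X => a :=
  ⟨continuous_const, continuous_const, continuous_const⟩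

theorem CT_constS {X : Type*} [TopologicalSpace X] (a : Sym ℝ) :
    PS (fun F : X → ℝ => Continuous F) fun _ : X => a :=
  ⟨continuous_const, continuous_const, continuous_const, continuous_const, continuous_const,
    continuous_const⟩

theorem PS_co {X : Type*} [TopologicalSpace X] {w : X → Sym ℝ}
    (hw : PS (fun F : X → ℝ => Continuous F) w) : PS (CS : (X → S3 ℝ) → Prop)
      fun p => (w p).map co :=
  ⟨CS_co hw.xx, CS_co hw.xy, CS_co hw.xz, CS_co hw.yy, CS_co hw.yz, CS_co hw.zz⟩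

theorem PT_co {X : Type*} [TopologicalSpace X] {w : X → T ℝ}
    (hw : CT w) : PT (CS : (X → S3 ℝ) → Prop) fun p => (w p).map co :=
  ⟨CS_co hw.x, CS_co hw.y, CS_co hw.z⟩

/-- the curvature polynomial depends continuously on the parameters -/
theorem CONT1 : St_CONT1 := by
  unfold St_CONT1
  have hd : ∀ j : Fin 20, Continuous (fun p : ℝ × ℝ × ℝ × DD => p.2.2.2 j) := fun j =>
    (continuous_apply j).comp (continuous_snd.comp (continuous_snd.comp continuous_snd))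
  have hμ : Continuous (fun p : ℝ × ℝ × ℝ × DD => p.1) := continuous_fst
  have hε : Continuous (fun p : ℝ × ℝ × ℝ × DD => p.2.1) := continuous_fst.comp continuous_snd
  have hl : Continuous (fun p : ℝ × ℝ × ℝ × DD => p.2.2.1) :=
    continuous_fst.comp (continuous_snd.comp continuous_snd)
  have h1 : CT (fun p : ℝ × ℝ × ℝ × DD => dx1 p.2.2.2) := ⟨hd 0, hd 1, hd 2⟩
  have h2 : CT (fun p : ℝ × ℝ × ℝ × DD => dx2 p.2.2.2) := ⟨hd 3, hd 4, hd 5⟩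
  have h3 : CT (fun p : ℝ × ℝ × ℝ × DD => dx3 p.2.2.2) := CT_cr h1 h2
  have k1 : CT (fun p : ℝ × ℝ × ℝ × DD => dy1 p.2.2.2) := ⟨hd 6, hd 7, hd 8⟩
  have k2 : CT (fun p : ℝ × ℝ × ℝ × DD => dy2 p.2.2.2) := ⟨hd 9, hd 10, hd 11⟩
  have k3 : CT (fun p : ℝ × ℝ × ℝ × DD => dy3 p.2.2.2) := CT_cr k1 k2
  exact PPn_closd closd_cont (fun _ => 0) (fun _ => 1) _ _ _ _ _ _ _ _ _ _ _ _ _ _ _ _
    continuous_const continuous_const (CT_frS (CT_W0 hμ) h1 h2 h3)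
    (CT_frS (CT_constS Q0) h1 h2 h3) (CT_frV (CT_const v0) h1 h2 h3) hε hl k1 k2 k3
    (hd 12) (hd 13) (hd 14) (hd 15) (hd 16) (hd 17) (hd 18) (hd 19)

/-- the quadratic part depends continuously on the parameters -/
theorem CONT2 : St_CONT2 := by
  unfold St_CONT2
  have hd : ∀ j : Fin 17, Continuous (fun p : ℝ × (Fin 17 → ℝ) => p.2 j) := fun j =>
    (continuous_apply j).comp continuous_snd
  have hμ : Continuous (fun p : ℝ × (Fin 17 → ℝ) => p.1) := continuous_fst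
  have h1 : CT (fun p : ℝ × (Fin 17 → ℝ) => (⟨p.2 0, p.2 1, p.2 2⟩ : T ℝ)) :=
    ⟨hd 0, hd 1, hd 2⟩
  have h2 : CT (fun p : ℝ × (Fin 17 → ℝ) => (⟨p.2 3, p.2 4, p.2 5⟩ : T ℝ)) :=
    ⟨hd 3, hd 4, hd 5⟩
  have h3 := CT_cr h1 h2
  have key := PPc_closd closd_CS (fun _ : ℝ × (Fin 17 → ℝ) => co 0) (fun _ => co 1) _ _ _ _
    (fun p : ℝ × (Fin 17 → ℝ) => (⟨0, 0, 0 * p.2 16 ^ 2⟩ : S3 ℝ))
    _ _ _ _ _ _ _ _ _ _ _ _ _ _
    (CS_co continuous_const) (CS_co continuous_const)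
    (PS_co (CT_frS (CT_W0 hμ) h1 h2 h3))
    (PS_co (CT_frS (CT_constS Q0) h1 h2 h3)) (PT_co (CT_frV (CT_const v0) h1 h2 h3))
    (CS_li (hd 16)) ⟨continuous_const, continuous_const, continuous_const.mul ((hd 16).pow 2)⟩
    (CS_co (hd 6)) (CS_co (hd 7)) (CS_cs (hd 8)) (CS_li (hd 8)) (CS_cs (hd 9)) (CS_li (hd 9))
    (CS_cs (hd 10)) (CS_li (hd 10)) (CS_cs (hd 11)) (CS_li (hd 11))
    (CS_li (hd 12)) (CS_li (hd 13)) (CS_li (hd 14)) (CS_li (hd 15))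
  exact key.2.2

end H930HO
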