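import Pool.Agent.H902R2.HO.Stubs2

/-!
ROOM HO: positivity of the quadratic part for small `μ`.
-/

open Topology

namespace H930HO
open H902HO

/-- the first vector of the frame in the coordinates of `St_CONT2` -/
def qx1 (q : Fin 17 → ℝ) : T ℝ := ⟨q 0, q 1, q 2⟩
/-- the second vector of the frame in the coordinates of `St_CONT2` -/
def qx2 (q : Fin 17 → ℝ) : T ℝ := ⟨q 3, q 4, q 5⟩
/-- the third vector of the frame in the coordinates of `St_CONT2` -/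
def qx3 (q : Fin 17 → ℝ) : T ℝ := T.cr (qx1 q) (qx2 q)

/-- the function whose positivity is to be shown -/
noncomputable def hpF (p : ℝ × (Fin 17 → ℝ)) : ℝ :=
  Hc p.1 0 (qx1 p.2) (qx2 p.2) (qx3 p.2)
    (p.2 6) (p.2 7) (p.2 8) (p.2 9) (p.2 10) (p.2 11) (p.2 12) (p.2 13) (p.2 14) (p.2 15) (p.2 16)
    + 4 * (1 / 128) * p.2 16 ^ 2 * GG (qx3 p.2)

/-- the compact set of parameters -/
def hpS : Set (Fin 17 → ℝ) := {q | T.dot (qx1 q) (qx1 q) = 1 ∧ T.dot (qx2 q) (qx2 q) = 1 ∧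
  T.dot (qx1 q) (qx2 q) = 0 ∧ q 6 ^ 2 + q 7 ^ 2 = 1 ∧
  q 8 ^ 2 + q 9 ^ 2 + q 10 ^ 2 + q 11 ^ 2 + q 12 ^ 2 + q 13 ^ 2 + q 14 ^ 2 + q 15 ^ 2 + q 16 ^ 2 = 1}

theorem hpF_cont (h4 : St_CONT2) : Continuous hpF := by
  unfold hpF
  refine Continuous.add h4 ?_
  unfold GG qx3 qx1 qx2 T.cr
  fun_prop

theorem hpS_closed : IsClosed hpS := by
  unfold hpS
  simp only [Set.setOf_and]
  refine IsClosed.inter ?_ (IsClosed.inter ?_ (IsClosed.inter ?_ (IsClosed.inter ?_ ?_)))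
  · exact isClosed_eq (by unfold T.dot qx1; fun_prop) continuous_const
  · exact isClosed_eq (by unfold T.dot qx2; fun_prop) continuous_const
  · exact isClosed_eq (by unfold T.dot qx1 qx2; fun_prop) continuous_const
  · exact isClosed_eq (by fun_prop) continuous_const
  · exact isClosed_eq (by fun_prop) continuous_const

theorem hpS_bound (q : Fin 17 → ℝ) (hq : q ∈ hpS) (j : Fin 17) : |q j| ≤ 1 := by
  obtain ⟨h1, h2, h3, h4, h5⟩ := hq
  have e1 : q 0 * q 0 + q 1 * q 1 + q 2 * q 2 = 1 := h1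
  have e2 : q 3 * q 3 + q 4 * q 4 + q 5 * q 5 = 1 := h2
  rw [← sq_le_one_iff_abs_le_one]
  fin_cases j
  · change q 0 ^ 2 ≤ 1
    nlinarith [sq_nonneg (q 1), sq_nonneg (q 2)]
  · change q 1 ^ 2 ≤ 1
    nlinarith [sq_nonneg (q 0), sq_nonneg (q 2)]
  · change q 2 ^ 2 ≤ 1
    nlinarith [sq_nonneg (q 1), sq_nonneg (q 0)]
  · change q 3 ^ 2 ≤ 1
    nlinarith [sq_nonneg (q 4), sq_nonneg (q 5)]
  · change q 4 ^ 2 ≤ 1
    nlinarith [sq_nonneg (q 3), sq_nonneg (q 5)]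
  · change q 5 ^ 2 ≤ 1
    nlinarith [sq_nonneg (q 4), sq_nonneg (q 3)]
  · change q 6 ^ 2 ≤ 1
    linarith [sq_nonneg (q 7)]
  · change q 7 ^ 2 ≤ 1
    linarith [sq_nonneg (q 6)]
  · change q 8 ^ 2 ≤ 1
    linarith [sq_nonneg (q 9), sq_nonneg (q 10), sq_nonneg (q 11), sq_nonneg (q 12),
      sq_nonneg (q 13), sq_nonneg (q 14), sq_nonneg (q 15), sq_nonneg (q 16)]
  · change q 9 ^ 2 ≤ 1
    linarith [sq_nonneg (q 8), sq_nonneg (q 10), sq_nonneg (q 11), sq_nonneg (q 12),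
      sq_nonneg (q 13), sq_nonneg (q 14), sq_nonneg (q 15), sq_nonneg (q 16)]
  · change q 10 ^ 2 ≤ 1
    linarith [sq_nonneg (q 9), sq_nonneg (q 8), sq_nonneg (q 11), sq_nonneg (q 12),
      sq_nonneg (q 13), sq_nonneg (q 14), sq_nonneg (q 15), sq_nonneg (q 16)]
  · change q 11 ^ 2 ≤ 1
    linarith [sq_nonneg (q 9), sq_nonneg (q 10), sq_nonneg (q 8), sq_nonneg (q 12),
      sq_nonneg (q 13), sq_nonneg (q 14), sq_nonneg (q 15), sq_nonneg (q 16)]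
  · change q 12 ^ 2 ≤ 1
    linarith [sq_nonneg (q 9), sq_nonneg (q 10), sq_nonneg (q 11), sq_nonneg (q 8),
      sq_nonneg (q 13), sq_nonneg (q 14), sq_nonneg (q 15), sq_nonneg (q 16)]
  · change q 13 ^ 2 ≤ 1
    linarith [sq_nonneg (q 9), sq_nonneg (q 10), sq_nonneg (q 11), sq_nonneg (q 12),
      sq_nonneg (q 8), sq_nonneg (q 14), sq_nonneg (q 15), sq_nonneg (q 16)]
  · change q 14 ^ 2 ≤ 1
    linarith [sq_nonneg (q 9), sq_nonneg (q 10), sq_nonneg (q 11), sq_nonneg (q 12),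
      sq_nonneg (q 13), sq_nonneg (q 8), sq_nonneg (q 15), sq_nonneg (q 16)]
  · change q 15 ^ 2 ≤ 1
    linarith [sq_nonneg (q 9), sq_nonneg (q 10), sq_nonneg (q 11), sq_nonneg (q 12),
      sq_nonneg (q 13), sq_nonneg (q 14), sq_nonneg (q 8), sq_nonneg (q 16)]
  · change q 16 ^ 2 ≤ 1
    linarith [sq_nonneg (q 9), sq_nonneg (q 10), sq_nonneg (q 11), sq_nonneg (q 12),
      sq_nonneg (q 13), sq_nonneg (q 14), sq_nonneg (q 15), sq_nonneg (q 8)]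

theorem hpS_compact : IsCompact hpS := by
  refine IsCompact.of_isClosed_subset (isCompact_Icc (a := fun _ : Fin 17 => (-1 : ℝ))
    (b := fun _ => 1)) hpS_closed ?_
  intro q hq
  exact ⟨fun j => (abs_le.1 (hpS_bound q hq j)).1, fun j => (abs_le.1 (hpS_bound q hq j)).2⟩

/-- the third vector of a frame is a unit vector -/
theorem cr_unit (x1 x2 : T ℝ) (h1 : T.dot x1 x1 = 1) (h2 : T.dot x2 x2 = 1)
    (h3 : T.dot x1 x2 = 0) : T.dot (T.cr x1 x2) (T.cr x1 x2) = 1 := by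
  have h4 : T.dot (T.cr x1 x2) (T.cr x1 x2) =
      T.dot x1 x1 * T.dot x2 x2 - T.dot x1 x2 ^ 2 := by
    unfold T.dot T.cr
    ring
  rw [h4, h1, h2, h3]
  norm_num

/-- the sum of squares vanishes only at `0` -/
theorem hp_sos (c s o1 o2 r k g1 g2 g3 g4 e z G : ℝ)
    (hd : o1 ^ 2 + o2 ^ 2 + r ^ 2 + k ^ 2 + g1 ^ 2 + g2 ^ 2 + g3 ^ 2 + g4 ^ 2 + e ^ 2 = 1)
    (hG : 0 < z ^ 2 + G) :
    0 < 4 * k ^ 2 + 4 * r ^ 2 + (o1 + k - r * c) ^ 2 + (o2 - r * s) ^ 2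
    + 3 * ((o2 + g2) ^ 2 + (o1 * s - o2 * c + c * (e * z) - g4) ^ 2
      + (3 * (k - r * c) + c * (o1 * c + o2 * s) - c * s * (e * z) + g4 * s) ^ 2
      + (-3 * r * s + c * (o1 * s - o2 * c) - s ^ 2 * (e * z) - g2 - g4 * c) ^ 2)
    + 3 * (g1 ^ 2 + g3 ^ 2 + (g1 + g3) ^ 2) + (e * z) ^ 2 + e ^ 2 * G := by
  have key : (e * z) ^ 2 + e ^ 2 * G = e ^ 2 * (z ^ 2 + G) := by ring
  obtain ⟨A, hA⟩ : ∃ A, A = (o1 + k - r * c) ^ 2 := ⟨_, rfl⟩
  obtain ⟨B, hB⟩ : ∃ B, B = (o2 - r * s) ^ 2 := ⟨_, rfl⟩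
  obtain ⟨C, hC⟩ : ∃ C, C = (o2 + g2) ^ 2 := ⟨_, rfl⟩
  obtain ⟨D, hD⟩ : ∃ D, D = (o1 * s - o2 * c + c * (e * z) - g4) ^ 2 := ⟨_, rfl⟩
  obtain ⟨E, hE⟩ : ∃ E, E =
    (3 * (k - r * c) + c * (o1 * c + o2 * s) - c * s * (e * z) + g4 * s) ^ 2 := ⟨_, rfl⟩
  obtain ⟨F, hF⟩ : ∃ F, F =
    (-3 * r * s + c * (o1 * s - o2 * c) - s ^ 2 * (e * z) - g2 - g4 * c) ^ 2 := ⟨_, rfl⟩
  rw [← hA, ← hB, ← hC, ← hD, ← hE, ← hF, add_assoc, key]
  have pA : 0 ≤ A := hA ▸ sq_nonneg _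
  have pB : 0 ≤ B := hB ▸ sq_nonneg _
  have pC : 0 ≤ C := hC ▸ sq_nonneg _
  have pD : 0 ≤ D := hD ▸ sq_nonneg _
  have pE : 0 ≤ E := hE ▸ sq_nonneg _
  have pF : 0 ≤ F := hF ▸ sq_nonneg _
  have p1 := sq_nonneg k
  have p2 := sq_nonneg r
  have p3 := sq_nonneg g1
  have p4 := sq_nonneg g3
  have p5 := sq_nonneg (g1 + g3)
  have p6 : 0 ≤ e ^ 2 * (z ^ 2 + G) := mul_nonneg (sq_nonneg _) hG.le
  by_contra hne
  push Not at hne
  have z1 : k ^ 2 = 0 := by linarith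
  have z2 : r ^ 2 = 0 := by linarith
  have z3 : g1 ^ 2 = 0 := by linarith
  have z4 : g3 ^ 2 = 0 := by linarith
  have z5 : A = 0 := by linarith
  have z6 : B = 0 := by linarith
  have z7 : C = 0 := by linarith
  have z8 : D = 0 := by linarith
  have z9 : e ^ 2 * (z ^ 2 + G) = 0 := by linarith
  have y1 : k = 0 := by simpa using z1
  have y2 : r = 0 := by simpa using z2
  have y3 : g1 = 0 := by simpa using z3
  have y4 : g3 = 0 := by simpa using z4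
  have y9 : e = 0 := by
    rcases mul_eq_zero.1 z9 with h | h
    · simpa using h
    · exact absurd h hG.ne'
  rw [hA] at z5
  rw [hB] at z6
  rw [hC] at z7
  rw [hD] at z8
  have y5 : o1 + k - r * c = 0 := by simpa using z5
  have y6 : o2 - r * s = 0 := by simpa using z6
  have y7 : o2 + g2 = 0 := by simpa using z7
  have y8 : o1 * s - o2 * c + c * (e * z) - g4 = 0 := by simpa using z8
  rw [y1, y2] at y5
  rw [y2] at y6
  have w1 : o1 = 0 := by linarith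
  have w2 : o2 = 0 := by linarith
  have w3 : g2 = 0 := by linarith
  rw [w1, w2, y9] at y8
  have w4 : g4 = 0 := by linarith
  rw [w1, w2, w3, w4, y1, y2, y3, y4, y9] at hd
  norm_num at hd

theorem hpF_pos (h1 : St_ID2) (h2 : St_FR1) (h3 : St_FR3) (q : Fin 17 → ℝ) (hq : q ∈ hpS) :
    0 < hpF (0, q) := by
  obtain ⟨k1, k2, k3, k4, k5⟩ := hq
  have hfr : IsFrame (qx1 q) (qx2 q) (qx3 q) := ⟨k1, k2, k3, rfl⟩
  have hW : frS (W0 0) (qx1 q) (qx2 q) (qx3 q) = one3 := by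
    rw [h2 0 _ _ _ hfr]
    simp only [zero_mul, add_zero]
    rfl
  have hu : T.dot (qx3 q) (qx3 q) = 1 := cr_unit _ _ k1 k2 k3
  have h5 := h3 (qx3 q) hu
  unfold hpF Hc
  simp only
  rw [hW, h1 _ _ _ _ _ _ _ _ _ _ _ _ _ k4]
  have hv : (frV v0 (qx1 q) (qx2 q) (qx3 q)).z = (qx3 q).x + (qx3 q).y := by
    unfold frV T.dot v0
    ring
  rw [hv]
  have h6 := hp_sos (q 6) (q 7) (q 8) (q 9) (q 10) (q 11) (q 12) (q 13) (q 14) (q 15) (q 16)
    ((qx3 q).x + (qx3 q).y) (4 * (1 / 128) * GG (qx3 q)) k5 h5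
  refine lt_of_lt_of_eq h6 ?_
  ring

/-- positivity of the quadratic part for small `μ` -/
theorem HPOS (h1 : St_ID2) (h2 : St_FR1) (h3 : St_FR3) (h4 : St_CONT2) : St_HPOS := by
  have hc := hpF_cont h4
  obtain ⟨a, ha, hmin⟩ : ∃ a, 0 < a ∧ ∀ q ∈ hpS, a ≤ hpF (0, q) := by
    have h5 : ContinuousOn (fun q => hpF (0, q)) hpS :=
      (hc.comp (Continuous.prodMk_right 0)).continuousOn
    exact hpS_compact.exists_forall_le' h5 (fun q hq => hpF_pos h1 h2 h3 q hq)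
  have hev : ∀ᶠ μ in 𝓝 (0 : ℝ), ∀ q ∈ hpS, a / 2 < hpF (μ, q) := by
    apply hpS_compact.eventually_forall_of_forall_eventually
    intro q hq
    have h6 : a / 2 < hpF (0, q) := by linarith [hmin q hq]
    exact hc.continuousAt.eventually_const_lt h6
  obtain ⟨δ, hδ, hball⟩ := Metric.eventually_nhds_iff.1 hev
  refine ⟨min (δ / 2) 1, a / 2, by positivity, min_le_right _ _, by positivity, ?_⟩
  intro μ x1 x2 x3 c s o1 o2 r k g1 g2 g3 g4 e hμ0 hμ hfr hcs hd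
  have hμd : dist μ 0 < δ := by
    rw [Real.dist_eq, sub_zero, abs_of_nonneg hμ0]
    exact lt_of_le_of_lt (hμ.trans (min_le_left _ _)) (by linarith)
  obtain ⟨q, hq⟩ : ∃ q : Fin 17 → ℝ, q = ![x1.x, x1.y, x1.z, x2.x, x2.y, x2.z, c, s, o1, o2, r, k,
    g1, g2, g3, g4, e] := ⟨_, rfl⟩
  have q1 : qx1 q = x1 := by rw [hq]; rfl
  have q2 : qx2 q = x2 := by rw [hq]; rfl
  have q3 : qx3 q = x3 := by
    unfold qx3
    rw [q1, q2, hfr.cr]
  have e6 : q 6 = c := by rw [hq]; rfl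
  have e7 : q 7 = s := by rw [hq]; rfl
  have e8 : q 8 = o1 := by rw [hq]; rfl
  have e9 : q 9 = o2 := by rw [hq]; rfl
  have e10 : q 10 = r := by rw [hq]; rfl
  have e11 : q 11 = k := by rw [hq]; rfl
  have e12 : q 12 = g1 := by rw [hq]; rfl
  have e13 : q 13 = g2 := by rw [hq]; rfl
  have e14 : q 14 = g3 := by rw [hq]; rfl
  have e15 : q 15 = g4 := by rw [hq]; rfl
  have e16 : q 16 = e := by rw [hq]; rfl
  have hqS : q ∈ hpS := by
    refine ⟨?_, ?_, ?_, ?_, ?_⟩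
    · rw [q1]; exact hfr.d11
    · rw [q2]; exact hfr.d22
    · rw [q1, q2]; exact hfr.d12
    · rw [e6, e7]; exact hcs
    · rw [e8, e9, e10, e11, e12, e13, e14, e15, e16]; exact hd
  have h7 := hball hμd q hqS
  unfold hpF at h7
  simp only [q1, q2, q3, e6, e7, e8, e9, e10, e11, e12, e13, e14, e15, e16] at h7
  exact h7.le

end H930HO
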